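import Mathlib
import Pool.Agent.X20.OscBase
import Pool.Agent.X20.OscLog
import Pool.Agent.X20.OscSign
import Pool.Agent.X20.OscNum
import Pool.Agent.X20.OscCommon

/-! The signs of `f_{A,n}(-1)` for `A = {1, 4, 7, ...}` are not eventually periodic. -/

namespace Pool.Agent.Results.MP_5217bf_nt.NotPeriodic

open Finset Filter Topology Pool.Agent.X20.Osc

/-- The set `A = {1, 4, 7, 10, ...}`. -/
def A (i : ℕ) : Prop := i % 3 = 1

instance : DecidablePred A := fun i => inferInstanceAs (Decidable (i % 3 = 1))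

/-- The `n`-th `A`-partition polynomial: the sum of `t ^ (number of parts)` over the partitions
of `n` with all parts in `A`. -/
noncomputable def poly (n : ℕ) : Polynomial ℤ :=
  ∑ l ∈ (Finset.univ : Finset (Nat.Partition n)).filter (fun l => ∀ i ∈ l.parts, A i),
    Polynomial.X ^ (Multiset.card l.parts)

/-- `f_{A,n}(-1)`. -/
noncomputable def f (n : ℕ) : ℤ := (poly n).eval (-1)

theorem f_eq (n : ℕ) : ((f n : ℝ) : ℂ) = fw (fun i => i % 3 = 1) (-1) n := by
  unfold f poly fw A
  rw [Polynomial.eval_finsetSum]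
  push_cast
  apply Finset.sum_congr rfl
  intro l _
  simp

theorem norm_rho {ρ : ℂ} {p : ℕ} (hp : 0 < p) (h : ρ ^ p = 1) : ‖ρ‖ = 1 :=
  Complex.norm_eq_one_of_pow_eq_one h hp.ne'

/-- The sequence `sign (f_{A,n}(-1))` is not eventually periodic. -/
theorem result : ¬ ∃ p : ℕ, 1 ≤ p ∧ ∃ N : ℕ, ∀ n, N ≤ n → (f (n + p)).sign = (f n).sign := by
  rintro ⟨p, hp, N, hper⟩
  have hgf : ∀ q : ℂ, ‖q‖ < 1 → ∑' n, (((f n : ℝ)) : ℂ) * q ^ n = Complex.exp (Lq 3 1 (-1) q) := by
    intro q hq
    simp_rw [f_eq]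
    exact gf_eq 3 1 le_rfl (by norm_num) (-1) q (by simp) hq
  apply osc_contra (fun n => (f n : ℝ)) _ p N hp _ (15 / 100) (16 / 100) 1 (by norm_num)
    (by norm_num) (by norm_num) _
    (fun x => -u6 * Complex.exp (-(x * (1 + ((-1 : ℝ) : ℂ) * Complex.I)))) _ _
  · -- summability
    intro r hr0 hr1
    have h1 := summable_fw (fun i => i % 3 = 1) (-1) (r : ℂ) (by simp)
      (by rw [Complex.norm_real, Real.norm_of_nonneg hr0]; exact hr1)
    refine h1.congr fun n => ?_
    rw [← f_eq, norm_mul, norm_pow, Complex.norm_real, Complex.norm_real, Real.norm_of_nonneg hr0,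
      Real.norm_eq_abs]
  · -- sign condition
    intro n hn
    have h := hper n hn
    have key : ∀ z : ℤ, (0 : ℝ) ≤ (z : ℝ) ↔ 0 ≤ z.sign := by
      intro z
      rw [Int.sign_nonneg_iff]
      exact_mod_cast Iff.rfl
    rw [key, key, h]
  · -- radial bound
    intro ρ hρ
    have hn := norm_rho hp hρ
    have hL : (Lam 3 1 (-1) ρ).re < 15 / 100 := by
      by_cases h3 : ρ ^ 3 = 1
      · rw [Lam_eq 3 1 (-1) ρ h3, pow_one]
        have e : (Sd (-1 * ρ) / ((3 : ℕ) : ℂ)).re = (Sd (-1 * ρ)).re / 3 := by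
          have : (Sd (-1 * ρ) / ((3 : ℕ) : ℂ)) = Sd (-1 * ρ) / ((3 : ℝ) : ℂ) := by push_cast; rfl
          rw [this, Complex.div_ofReal_re]
        rw [e]
        have h4 : (ρ - 1) * (ρ ^ 2 + ρ + 1) = 0 := by linear_combination h3
        rcases mul_eq_zero.mp h4 with h5 | h5
        · have : ρ = 1 := sub_eq_zero.mp h5
          rw [this, mul_one]
          have := Sd_neg_one
          linarith
        · have h6 := Sd_six_re_le (u := -1 * ρ) (by linear_combination h5)
          linarith
      · have h1 := Lam_norm_le 3 1 (by norm_num) (-1) ρ (by simp) hn h3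
        have h2 := (Complex.re_le_norm _).trans h1
        have h3 := pi_sq_lt
        norm_num at h2
        linarith
    have h1 := radial 3 1 le_rfl (by norm_num) (-1) ρ (by simp) hn _ hL
    filter_upwards [h1, self_mem_nhdsWithin] with x hx1 hx2
    have hx2' : 0 < x := hx2
    rw [hgf _ (by
      rw [norm_mul, hn, one_mul, Complex.norm_real, Real.norm_of_nonneg (Real.exp_pos _).le,
        Real.exp_lt_one_iff]
      linarith), one_mul]
    exact hx1
  · intro x _
    exact norm_q (-u6) (by rw [norm_neg]; exact norm_of_root u6_root) (-1) x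
  · have hn : ‖-u6‖ = 1 := by rw [norm_neg]; exact norm_of_root u6_root
    have hL : (16 / 100 : ℝ) < (Lam 3 1 (-1) (-u6) / (1 + ((-1 : ℝ) : ℂ) * Complex.I)).re := by
      rw [Lam_eq 3 1 (-1) (-u6) (by rw [neg_pow, u6_cube]; norm_num), pow_one, neg_mul_neg, one_mul]
      have := re_div (Sd u6) 3 (by norm_num)
      have e : ((3 : ℕ) : ℂ) = ((3 : ℝ) : ℂ) := by push_cast; rfl
      rw [e, this]
      have h1 := (Sd_six_lower u6_root u6_im).1
      norm_num at h1 ⊢
      linarith
    have h1 := ev_lower 3 1 le_rfl (by norm_num) (-1) (-u6) (by simp) hn (-1) _ hL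
    filter_upwards [h1, self_mem_nhdsWithin] with x hx1 hx2
    have hx2' : 0 < x := hx2
    have hlt : ‖-u6 * Complex.exp (-(x * (1 + ((-1 : ℝ) : ℂ) * Complex.I)))‖ < 1 := by
      rw [norm_q (-u6) hn (-1) x, Real.exp_lt_one_iff]
      linarith
    rw [hgf _ hlt, one_mul]
    have := Real.exp_pos (15 / 100 / x)
    linarith

end Pool.Agent.Results.MP_5217bf_nt.NotPeriodic
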